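import Mathlib

set_option autoImplicit false

namespace Pool.Agent.Results.MP_e8bb91_co.SubdividedProbe

open Finset

section Defs

/-- `W` resolves `G`: the distances to the members of `W` determine every vertex of `G`. -/
def Resolving {V : Type} (G : SimpleGraph V) (W : Finset V) : Prop :=
  ∀ u v, (∀ w ∈ W, G.dist u w = G.dist v w) → u = v

/-- The metric dimension of `G`, the least size of a resolving set. -/
noncomputable def metricDim {V : Type} (G : SimpleGraph V) : ℕ :=
  sInf {n | ∃ W : Finset V, Resolving G W ∧ W.card = n}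

variable {V : Type} [DecidableEq V]

/-- The point at distance `j` from `a` on the path of length `m` from `a` to `b`, written as
the weight function with weight `m - j` at `a` and weight `j` at `b` (and weight `m` at `a` if
`a = b`, or if `j = 0`). -/
def pt (m : ℕ) (a b : V) (j : ℕ) : V → ℕ :=
  fun c => (if c = a then m - j else 0) + (if c = b then j else 0)

lemma pt_swap {m : ℕ} (a b : V) {j : ℕ} (hj : j ≤ m) : pt m b a (m - j) = pt m a b j := by
  funext c
  have h : m - (m - j) = j := by omega
  simp only [pt, h]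
  exact add_comm _ _

/-- The vertices of `G^{1/m}`: the original vertices (`a = b`, or `j = 0`, or `j = m`) and the points
at distances `1, ..., m - 1` on the paths of length `m` that replace the edges. -/
def FracVertex (G : SimpleGraph V) (m : ℕ) : Type :=
  {f : V → ℕ // ∃ a b j, (a = b ∨ G.Adj a b) ∧ j ≤ m ∧ f = pt m a b j}

/-- The graph `G^{1/m}`: consecutive points on the path of an edge are adjacent. -/
def frac (G : SimpleGraph V) (m : ℕ) : SimpleGraph (FracVertex G m) where
  Adj f g := ∃ a b j, G.Adj a b ∧ j < m ∧ f.1 = pt m a b j ∧ g.1 = pt m a b (j + 1)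
  symm := ⟨by
    rintro f g ⟨a, b, j, hab, hj, hf, hg⟩
    refine ⟨b, a, m - (j + 1), hab.symm, by omega, ?_, ?_⟩
    · rw [hg, pt_swap a b (by omega)]
    · have h : m - (j + 1) + 1 = m - j := by omega
      rw [hf, h, pt_swap a b (by omega)]⟩
  loopless := ⟨by
    rintro f ⟨a, b, j, hab, hj, hf, hg⟩
    have h := congrFun (hf.symm.trans hg) b
    have hba : b ≠ a := hab.ne'
    simp [pt, hba] at h⟩

/-- `CopWins H S`: the cop, knowing that the robber is on some vertex of `S` and about to probe,
can guarantee to determine the position of the robber after finitely many rounds.  The cop has a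
probe `p` such that, for every answer `a`, either at most one vertex of `S` is at distance `a` from
`p`, or the cop can guarantee a win from the knowledge after the move of the robber. -/
inductive CopWins {U : Type} (H : SimpleGraph U) : Set U → Prop
  | probe (S : Set U) (p : U)
      (h : ∀ a : ℕ, ¬ ({x | x ∈ S ∧ H.dist p x = a} : Set U).Subsingleton →
        CopWins H {y | ∃ x, (x ∈ S ∧ H.dist p x = a) ∧ (y = x ∨ H.Adj x y)}) : CopWins H S

/-- `H` is cop-winnable: the cop wins with no initial knowledge. -/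
def CopWinnable {U : Type} (H : SimpleGraph U) : Prop := CopWins H Set.univ

end Defs

/-! ### Distances in `G^{1/m}` -/

section Dist

variable {V : Type} [DecidableEq V] {G : SimpleGraph V} {m : ℕ}

/-- The original vertex `a` as a vertex of `G^{1/m}`. -/
def V0 (G : SimpleGraph V) (m : ℕ) (a : V) : FracVertex G m :=
  ⟨pt m a a 0, a, a, 0, Or.inl rfl, Nat.zero_le _, rfl⟩

lemma pt_zero (a b : V) : pt m a b 0 = pt m a a 0 := by
  funext c; simp [pt]

lemma pt_full (a b : V) : pt m a b m = pt m b b 0 := by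
  funext c; simp [pt]

lemma pt_self (a : V) {j : ℕ} (hj : j ≤ m) : pt m a a j = pt m a a 0 := by
  funext c
  by_cases h : c = a
  · simp [pt, h]; omega
  · simp [pt, h]

lemma nbr {a b : V} (hab : a ≠ b) {i : ℕ} (h0 : 0 < i) (hm : i < m) {z z1 : FracVertex G m}
    (hz : z.1 = pt m a b i) (h : (frac G m).Adj z z1) :
    z1.1 = pt m a b (i + 1) ∨ z1.1 = pt m a b (i - 1) := by
  obtain ⟨c, d, l, hcd, hl, hz', hz1⟩ := h
  have hcd' : c ≠ d := hcd.ne
  have he : pt m a b i = pt m c d l := hz.symm.trans hz'
  have ha := congrFun he a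
  have hb := congrFun he b
  simp only [pt, if_true, hab, hab.symm, if_false] at ha hb
  by_cases h1 : a = c
  · subst h1
    by_cases h2 : b = d
    · subst h2
      simp only [if_true, hab.symm, if_false] at hb
      left
      rw [hz1]
      congr 1
      omega
    · exfalso
      simp only [h2, hab.symm, if_false] at hb
      omega
  · by_cases h2 : a = d
    · subst h2
      by_cases h3 : b = c
      · subst h3
        simp only [if_true, hab, if_false] at ha
        right
        rw [hz1]
        have h4 : l + 1 = m - (i - 1) := by omega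
        rw [h4, pt_swap a b (by omega)]
      · exfalso
        simp only [h3, hab.symm, if_false] at hb
        omega
    · exfalso
      simp only [h1, h2, if_false] at ha
      omega

lemma edist_le_edge {a b : V} (hab : G.Adj a b) (i : ℕ) (hi : i ≤ m) (z : FracVertex G m)
    (hz : z.1 = pt m a b i) : (frac G m).edist z (V0 G m a) ≤ i := by
  induction i generalizing z with
  | zero =>
    have h : z = V0 G m a := Subtype.ext (hz.trans (pt_zero a b))
    rw [h]; simp
  | succ i ih =>
    let y : FracVertex G m := ⟨pt m a b i, a, b, i, Or.inr hab, by omega, rfl⟩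
    have h1 := ih (by omega) y rfl
    have hadj : (frac G m).Adj z y := SimpleGraph.Adj.symm ⟨a, b, i, hab, by omega, rfl, hz⟩
    have h2 : (frac G m).edist z y ≤ 1 := by
      have := (SimpleGraph.Walk.cons hadj SimpleGraph.Walk.nil).edist_le
      simpa using this
    calc (frac G m).edist z (V0 G m a) ≤ (frac G m).edist z y + (frac G m).edist y (V0 G m a) :=
          SimpleGraph.edist_triangle
      _ ≤ 1 + i := add_le_add h2 h1
      _ = ((i + 1 : ℕ) : ℕ∞) := by push_cast; exact add_comm _ _

lemma cast_step {p q : ℕ} (h : p ≤ q + 1) : (p : ℕ∞) ≤ (q : ℕ∞) + 1 := by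
  exact_mod_cast h

lemma cut_walk {a b : V} (hab : G.Adj a b) {z x : FracVertex G m} (W : (frac G m).Walk z x)
    (hx : ∀ i, 0 < i → i < m → x.1 ≠ pt m a b i) (i : ℕ) (hi : i ≤ m) (hz : z.1 = pt m a b i) :
    min ((frac G m).edist (V0 G m a) x + (i : ℕ∞)) ((frac G m).edist (V0 G m b) x + ((m - i : ℕ) : ℕ∞))
      ≤ (W.length : ℕ∞) := by
  induction W generalizing i with
  | nil =>
    rcases Nat.eq_zero_or_pos i with rfl | h0
    · have h : V0 G m a = _ := Subtype.ext ((pt_zero a b).symm.trans hz.symm)
      refine (min_le_left _ _).trans ?_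
      rw [h]; simp
    · rcases Nat.lt_or_ge i m with h1 | h1
      · exact absurd hz (hx i h0 h1)
      · obtain rfl : i = m := le_antisymm hi h1
        have h : V0 G i b = _ := Subtype.ext ((pt_full a b).symm.trans hz.symm)
        refine (min_le_right _ _).trans ?_
        rw [h]; simp
  | @cons z z1 x h W' ih =>
    rcases Nat.eq_zero_or_pos i with rfl | h0
    · have h' : V0 G m a = z := Subtype.ext ((pt_zero a b).symm.trans hz.symm)
      refine (min_le_left _ _).trans ?_
      rw [h']
      simpa using (SimpleGraph.Walk.cons h W').edist_le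
    · rcases Nat.lt_or_ge i m with h1 | h1
      · rcases nbr hab.ne h0 h1 hz h with h2 | h2
        · have := ih hx (i + 1) (by omega) h2
          rw [SimpleGraph.Walk.length_cons, Nat.cast_add, Nat.cast_one]
          refine le_trans ?_ (add_le_add_left this 1)
          rcases le_total ((frac G m).edist (V0 G m a) x + ((i + 1 : ℕ) : ℕ∞))
            ((frac G m).edist (V0 G m b) x + ((m - (i + 1) : ℕ) : ℕ∞)) with h3 | h3
          · rw [min_eq_left h3, add_assoc]
            refine (min_le_left _ _).trans (add_le_add le_rfl ?_)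
            exact cast_step (by omega)
          · rw [min_eq_right h3, add_assoc]
            refine (min_le_right _ _).trans (add_le_add le_rfl ?_)
            exact cast_step (by omega)
        · have := ih hx (i - 1) (by omega) h2
          rw [SimpleGraph.Walk.length_cons, Nat.cast_add, Nat.cast_one]
          refine le_trans ?_ (add_le_add_left this 1)
          rcases le_total ((frac G m).edist (V0 G m a) x + ((i - 1 : ℕ) : ℕ∞))
            ((frac G m).edist (V0 G m b) x + ((m - (i - 1) : ℕ) : ℕ∞)) with h3 | h3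
          · rw [min_eq_left h3, add_assoc]
            refine (min_le_left _ _).trans (add_le_add le_rfl ?_)
            exact cast_step (by omega)
          · rw [min_eq_right h3, add_assoc]
            refine (min_le_right _ _).trans (add_le_add le_rfl ?_)
            exact cast_step (by omega)
      · obtain rfl : i = m := le_antisymm hi h1
        have h' : V0 G i b = z := Subtype.ext ((pt_full a b).symm.trans hz.symm)
        refine (min_le_right _ _).trans ?_
        rw [h']
        simpa using (SimpleGraph.Walk.cons h W').edist_le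

lemma cut {a b : V} (hab : G.Adj a b) {z x : FracVertex G m}
    (hx : ∀ i, 0 < i → i < m → x.1 ≠ pt m a b i) (i : ℕ) (hi : i ≤ m) (hz : z.1 = pt m a b i) :
    (frac G m).edist z x =
    min ((frac G m).edist (V0 G m a) x + (i : ℕ∞))
      ((frac G m).edist (V0 G m b) x + ((m - i : ℕ) : ℕ∞)) := by
  apply le_antisymm
  · refine le_min ?_ ?_
    · calc (frac G m).edist z x ≤ (frac G m).edist z (V0 G m a) + (frac G m).edist (V0 G m a) x :=
            SimpleGraph.edist_triangle
        _ ≤ i + (frac G m).edist (V0 G m a) x := add_le_add (edist_le_edge hab i hi z hz) le_rfl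
        _ = _ := add_comm _ _
    · have hz' : z.1 = pt m b a (m - i) := by rw [hz, pt_swap a b hi]
      calc (frac G m).edist z x ≤ (frac G m).edist z (V0 G m b) + (frac G m).edist (V0 G m b) x :=
            SimpleGraph.edist_triangle
        _ ≤ ((m - i : ℕ) : ℕ∞) + (frac G m).edist (V0 G m b) x :=
            add_le_add (edist_le_edge hab.symm (m - i) (by omega) z hz') le_rfl
        _ = _ := add_comm _ _
  · unfold SimpleGraph.edist
    exact le_iInf fun W => cut_walk hab W hx i hi hz

lemma coord_adj {f g : FracVertex G m} (h : (frac G m).Adj f g) (t : V) : g.1 t ≤ f.1 t + 1 := by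
  obtain ⟨a, b, j, hab, hj, hf, hg⟩ := h
  rw [hf, hg]
  simp only [pt]
  split_ifs <;> omega

lemma coord_walk (t : V) {x y : FracVertex G m} (W : (frac G m).Walk x y) :
    y.1 t ≤ x.1 t + W.length := by
  induction W with
  | nil => simp
  | cons h W ih =>
    have := coord_adj h t
    rw [SimpleGraph.Walk.length_cons]
    omega

lemma le_edist_V0 {a b : V} (hab : a ≠ b) :
    (m : ℕ∞) ≤ (frac G m).edist (V0 G m a) (V0 G m b) := by
  unfold SimpleGraph.edist
  refine le_iInf fun W => ?_
  have h := coord_walk b W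
  have h1 : (V0 G m b).1 b = m := by simp [V0, pt]
  have h2 : (V0 G m a).1 b = 0 := by simp [V0, pt, hab.symm]
  rw [h1, h2, zero_add] at h
  exact Nat.cast_le.2 h

lemma edist_V0_adj {a b : V} (hab : G.Adj a b) :
    (frac G m).edist (V0 G m a) (V0 G m b) = m := by
  refine le_antisymm ?_ (le_edist_V0 hab.ne)
  have h := edist_le_edge (m := m) hab.symm m le_rfl (V0 G m a) (pt_full b a).symm
  exact h

end Dist

/-! ### The counterexample -/

section Example

/-- The graph `G_k`: a clique on all subsets of `Fin k`, and a landmark for every `i : Fin k` that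
is adjacent to the subsets that do not contain `i`. -/
def cex (k : ℕ) : SimpleGraph (Finset (Fin k) ⊕ Fin k) where
  Adj
    | Sum.inl s, Sum.inl t => s ≠ t
    | Sum.inl s, Sum.inr i => i ∉ s
    | Sum.inr i, Sum.inl s => i ∉ s
    | Sum.inr _, Sum.inr _ => False
  symm := ⟨by
    rintro (s | i) (t | j) h
    · exact Ne.symm h
    · exact h
    · exact h
    · exact h⟩
  loopless := ⟨by
    rintro (s | i) h
    · exact h rfl
    · exact h⟩

lemma adj_ll {k : ℕ} {s t : Finset (Fin k)} (h : s ≠ t) : (cex k).Adj (Sum.inl s) (Sum.inl t) := h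

lemma adj_lr {k : ℕ} {s : Finset (Fin k)} {i : Fin k} (h : i ∉ s) :
    (cex k).Adj (Sum.inl s) (Sum.inr i) := h

lemma connected_cex (k : ℕ) : (cex k).Connected := by
  rw [SimpleGraph.connected_iff_exists_forall_reachable]
  refine ⟨Sum.inl ∅, ?_⟩
  rintro (s | i)
  · by_cases h : s = ∅
    · rw [h]
    · exact (adj_ll (Ne.symm h)).reachable
  · exact (adj_lr (Finset.notMem_empty i)).reachable

lemma metricDim_cex (k : ℕ) : metricDim (cex k) ≤ k := by
  refine Nat.sInf_le ⟨(Finset.univ : Finset (Fin k)).image Sum.inr, ?_, ?_⟩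
  · intro u v h
    have h' : ∀ i : Fin k, (cex k).dist u (Sum.inr i) = (cex k).dist v (Sum.inr i) :=
      fun i => h _ (Finset.mem_image_of_mem _ (Finset.mem_univ i))
    rcases u with (s | i)
    · rcases v with (t | j)
      · congr 1
        ext i
        have hi := h' i
        constructor
        · intro his
          by_contra hit
          have h1 : (cex k).dist (Sum.inl t) (Sum.inr i) = 1 :=
            SimpleGraph.dist_eq_one_iff_adj.2 (adj_lr hit)
          rw [h1] at hi
          exact (SimpleGraph.dist_eq_one_iff_adj.1 hi) his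
        · intro hit
          by_contra his
          have h1 : (cex k).dist (Sum.inl s) (Sum.inr i) = 1 :=
            SimpleGraph.dist_eq_one_iff_adj.2 (adj_lr his)
          rw [h1] at hi
          exact (SimpleGraph.dist_eq_one_iff_adj.1 hi.symm) hit
      · have hj := h' j
        rw [SimpleGraph.dist_self] at hj
        exact ((connected_cex k).dist_eq_zero_iff).1 hj
    · have hi := h' i
      rw [SimpleGraph.dist_self] at hi
      exact (((connected_cex k).dist_eq_zero_iff).1 hi.symm).symm
  · rw [Finset.card_image_of_injective _ Sum.inr_injective]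
    simp

variable {k m : ℕ}

lemma edist_probe {j : ℕ} {v u : Finset (Fin k)} (hvu : v ≠ u) (hj : j ≤ m)
    {z : FracVertex (cex k) m} (hz : z.1 = pt m (Sum.inl v) (Sum.inl u) j)
    (w : Finset (Fin k) ⊕ Fin k) (h1 : w ≠ Sum.inl u)
    (h2 : ∀ i, w = Sum.inr i → i ∈ u → 2 * j ≤ m ∧ i ∉ v) :
    (frac (cex k) m).edist z (V0 (cex k) m w) =
      min ((frac (cex k) m).edist (V0 (cex k) m (Sum.inl v)) (V0 (cex k) m w) + (j : ℕ∞))
        ((m : ℕ∞) + ((m - j : ℕ) : ℕ∞)) := by
  have hne : (Sum.inl u : Finset (Fin k) ⊕ Fin k) ≠ Sum.inl v := fun h => hvu (Sum.inl.inj h).symm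
  rw [cut (adj_ll hvu) (x := V0 (cex k) m w) ?_ j hj hz]
  · rcases w with (s | i)
    · have hs : u ≠ s := fun h => h1 (by rw [h])
      rw [edist_V0_adj (adj_ll hs)]
    · by_cases hi : i ∈ u
      · obtain ⟨h3, h4⟩ := h2 i rfl hi
        rw [edist_V0_adj (adj_lr h4)]
        have h5 : (m : ℕ∞) ≤ (frac (cex k) m).edist (V0 (cex k) m (Sum.inl u))
            (V0 (cex k) m (Sum.inr i)) := le_edist_V0 (by simp)
        have h6 : (j : ℕ∞) ≤ ((m - j : ℕ) : ℕ∞) := Nat.cast_le.2 (by omega)
        rw [min_eq_left (add_le_add h5 h6), min_eq_left (add_le_add le_rfl h6)]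
      · rw [edist_V0_adj (adj_lr hi)]
  · intro i h3 h4 h5
    have h6 := congrFun h5 (Sum.inl v)
    have h7 := congrFun h5 (Sum.inl u)
    simp only [V0, pt, if_true, hne, hne.symm, if_false] at h6 h7
    by_cases h8 : (Sum.inl v : Finset (Fin k) ⊕ Fin k) = w
    · subst h8
      simp [hne] at h7
      omega
    · simp [h8] at h6
      omega

/-- The landmark coordinate of a vertex, if it is a landmark. -/
def lm : Finset (Fin k) ⊕ Fin k → Finset (Fin k)
  | Sum.inl _ => ∅
  | Sum.inr i => {i}

/-- The set of a vertex, if it is in the clique. -/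
def st : Finset (Fin k) ⊕ Fin k → Finset (Finset (Fin k))
  | Sum.inl s => {s}
  | Sum.inr _ => ∅

lemma lm_card {a b : Finset (Fin k) ⊕ Fin k} (h : a = b ∨ (cex k).Adj a b) :
    (lm a ∪ lm b).card ≤ 1 := by
  rcases a with (s | i) <;> rcases b with (t | l)
  · simp [lm]
  · simp [lm]
  · simp [lm]
  · rcases h with h | h
    · rw [h]; simp [lm]
    · exact h.elim

lemma st_card (a b : Finset (Fin k) ⊕ Fin k) : (st a ∪ st b).card ≤ 2 := by
  refine (Finset.card_union_le _ _).trans ?_
  rcases a with (s | i) <;> rcases b with (t | l) <;> simp [st]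

/-- The invariant of the robber: he may be at distance `j` from a known `v` on the path to any
2-subset `u` that is disjoint from `Q` and not in `E`. -/
def Good (S : Set (FracVertex (cex k) m)) : Prop :=
  ∃ (v Q : Finset (Fin k)) (E : Finset (Finset (Fin k))) (j : ℕ),
    1 ≤ j ∧ j ≤ m ∧ v.card = 2 ∧ v ⊆ Q ∧ Q.card ≤ 2 + (j - 1 - m / 2) ∧ E.card ≤ 2 * (j - 1) ∧
    ∀ u : Finset (Fin k), u.card = 2 → Disjoint u Q → u ∉ E →
      ∀ z : FracVertex (cex k) m, z.1 = pt m (Sum.inl v) (Sum.inl u) j → z ∈ S

lemma two_sets {Q : Finset (Fin k)} {E : Finset (Finset (Fin k))} {q e : ℕ} (hQ : Q.card ≤ q)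
    (hE : E.card ≤ e) (h : e + 2 ≤ (k - q).choose 2) :
    ∃ u₁ u₂ : Finset (Fin k), u₁ ≠ u₂ ∧ (u₁.card = 2 ∧ Disjoint u₁ Q ∧ u₁ ∉ E) ∧
      (u₂.card = 2 ∧ Disjoint u₂ Q ∧ u₂ ∉ E) := by
  classical
  have hT : k - q ≤ (Finset.univ \ Q).card := by
    rw [Finset.card_univ_sdiff, Fintype.card_fin]; omega
  have h1 : (k - q).choose 2 ≤ ((Finset.univ \ Q).powersetCard 2).card := by
    rw [Finset.card_powersetCard]
    exact Nat.choose_le_choose 2 hT
  have h2 : 1 < (((Finset.univ \ Q).powersetCard 2) \ E).card := by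
    have := Finset.le_card_sdiff E ((Finset.univ \ Q).powersetCard 2)
    omega
  obtain ⟨u₁, hu₁, u₂, hu₂, hne⟩ := Finset.one_lt_card.1 h2
  have key : ∀ u ∈ ((Finset.univ \ Q).powersetCard 2) \ E, u.card = 2 ∧ Disjoint u Q ∧ u ∉ E := by
    intro u hu
    rw [Finset.mem_sdiff, Finset.mem_powersetCard] at hu
    refine ⟨hu.1.2, ?_, hu.2⟩
    exact Finset.disjoint_of_subset_left hu.1.1 Finset.sdiff_disjoint
  exact ⟨u₁, u₂, hne, key _ hu₁, key _ hu₂⟩

lemma step (hm : 1 ≤ m) (hcount : 2 * m + 2 ≤ (k - (2 + (m - m / 2))).choose 2)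
    {S : Set (FracVertex (cex k) m)} (hS : Good S) (p : FracVertex (cex k) m) :
    ∃ a : ℕ, ¬ ({x | x ∈ S ∧ (frac (cex k) m).dist p x = a} : Set _).Subsingleton ∧
      Good {y | ∃ x, (x ∈ S ∧ (frac (cex k) m).dist p x = a) ∧ (y = x ∨ (frac (cex k) m).Adj x y)} := by
  classical
  obtain ⟨v, Q, E, j, hj1, hjm, hv, hvQ, hQ, hE, hU⟩ := hS
  obtain ⟨a, b, i, hab, hi, hp⟩ := p.2
  -- the new sets
  set Q' : Finset (Fin k) := Q ∪ (if m < 2 * j then lm a ∪ lm b else ∅) with hQ'
  set E' : Finset (Finset (Fin k)) := E ∪ (st a ∪ st b) with hE'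
  have hQQ' : Q ⊆ Q' := Finset.subset_union_left
  have hQ'card : Q'.card ≤ 2 + (j - m / 2) := by
    refine (Finset.card_union_le _ _).trans ?_
    have := lm_card hab
    split_ifs with h
    · omega
    · simp only [Finset.card_empty]; omega
  have hE'card : E'.card ≤ 2 * j := by
    refine (Finset.card_union_le _ _).trans ?_
    have := st_card a b
    omega
  have hvu : ∀ u : Finset (Fin k), u.card = 2 → Disjoint u Q' → v ≠ u := by
    intro u hu hd h
    subst h
    have h1 : v = ∅ := by
      have := Finset.disjoint_of_subset_right (hvQ.trans hQQ') hd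
      exact (Finset.disjoint_self_iff_empty v).1 this
    rw [h1] at hv
    simp at hv
  -- the distances do not depend on `u`
  have hw : ∀ w : Finset (Fin k) ⊕ Fin k, (w = a ∨ w = b) → ∀ u : Finset (Fin k), u.card = 2 →
      Disjoint u Q' → u ∉ E' → ∀ z : FracVertex (cex k) m,
      z.1 = pt m (Sum.inl v) (Sum.inl u) j →
      (frac (cex k) m).edist z (V0 (cex k) m w) =
      min ((frac (cex k) m).edist (V0 (cex k) m (Sum.inl v)) (V0 (cex k) m w) + (j : ℕ∞))
        ((m : ℕ∞) + ((m - j : ℕ) : ℕ∞)) := by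
    intro w hwab u hu hd hne z hz
    refine edist_probe (hvu u hu hd) hjm hz w ?_ ?_
    · rintro rfl
      apply hne
      rw [hE']
      refine Finset.mem_union_right _ ?_
      rcases hwab with h | h
      · rw [← h]; exact Finset.mem_union_left _ (by simp [st])
      · rw [← h]; exact Finset.mem_union_right _ (by simp [st])
    · rintro l rfl hl
      have hlQ : l ∉ Q' := Finset.disjoint_left.1 hd hl
      refine ⟨?_, fun h => hlQ (hQQ' (hvQ h))⟩
      by_contra hcon
      apply hlQ
      rw [hQ', if_pos (by omega)]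
      refine Finset.mem_union_right _ ?_
      rcases hwab with h | h
      · rw [← h]; exact Finset.mem_union_left _ (by simp [lm])
      · rw [← h]; exact Finset.mem_union_right _ (by simp [lm])
  obtain ⟨C, hC⟩ : ∃ C : ℕ∞, ∀ u : Finset (Fin k), u.card = 2 → Disjoint u Q' → u ∉ E' →
      ∀ z : FracVertex (cex k) m, z.1 = pt m (Sum.inl v) (Sum.inl u) j →
      (frac (cex k) m).edist p z = C := by
    rcases hab with rfl | hadj
    · refine ⟨min ((frac (cex k) m).edist (V0 (cex k) m (Sum.inl v)) (V0 (cex k) m a) + (j : ℕ∞))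
        ((m : ℕ∞) + ((m - j : ℕ) : ℕ∞)), fun u hu hd hne z hz => ?_⟩
      have hpa : p = V0 (cex k) m a := Subtype.ext (hp.trans (pt_self a hi))
      rw [hpa, SimpleGraph.edist_comm]
      exact hw a (Or.inl rfl) u hu hd hne z hz
    · refine ⟨min (min ((frac (cex k) m).edist (V0 (cex k) m (Sum.inl v)) (V0 (cex k) m a) +
          (j : ℕ∞)) ((m : ℕ∞) + ((m - j : ℕ) : ℕ∞)) + (i : ℕ∞))
        (min ((frac (cex k) m).edist (V0 (cex k) m (Sum.inl v)) (V0 (cex k) m b) +
          (j : ℕ∞)) ((m : ℕ∞) + ((m - j : ℕ) : ℕ∞)) + ((m - i : ℕ) : ℕ∞)),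
        fun u hu hd hne z hz => ?_⟩
      have hua : (Sum.inl u : Finset (Fin k) ⊕ Fin k) ≠ a := by
        rintro rfl
        exact hne (Finset.mem_union_right _ (Finset.mem_union_left _ (by simp [st])))
      have hub : (Sum.inl u : Finset (Fin k) ⊕ Fin k) ≠ b := by
        rintro rfl
        exact hne (Finset.mem_union_right _ (Finset.mem_union_right _ (by simp [st])))
      rw [cut hadj (x := z) ?_ i hi hp, SimpleGraph.edist_comm (u := V0 (cex k) m a),
        SimpleGraph.edist_comm (u := V0 (cex k) m b), hw a (Or.inl rfl) u hu hd hne z hz,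
        hw b (Or.inr rfl) u hu hd hne z hz]
      intro l _ _ h
      have h1 := congrFun (hz.symm.trans h) (Sum.inl u)
      simp [pt, hua, hub] at h1
      omega
  have hdist : ∀ u : Finset (Fin k), u.card = 2 → Disjoint u Q' → u ∉ E' →
      ∀ z : FracVertex (cex k) m, z.1 = pt m (Sum.inl v) (Sum.inl u) j →
      (frac (cex k) m).dist p z = C.toNat := by
    intro u hu hd hne z hz
    unfold SimpleGraph.dist
    rw [hC u hu hd hne z hz]
  have hmem : ∀ u : Finset (Fin k), u.card = 2 → Disjoint u Q' → u ∉ E' →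
      ∀ z : FracVertex (cex k) m, z.1 = pt m (Sum.inl v) (Sum.inl u) j →
      z ∈ S ∧ (frac (cex k) m).dist p z = C.toNat := by
    intro u hu hd hne z hz
    refine ⟨hU u hu (Finset.disjoint_of_subset_right hQQ' hd)
      (fun h => hne (Finset.mem_union_left _ h)) z hz, hdist u hu hd hne z hz⟩
  obtain ⟨u₁, u₂, hne12, ⟨hc1, hd1, he1⟩, ⟨hc2, hd2, he2⟩⟩ :=
    two_sets (q := 2 + (m - m / 2)) (e := 2 * m) (hQ'card.trans (by omega))
      (hE'card.trans (by omega)) hcount
  let zz : ∀ u : Finset (Fin k), v ≠ u → FracVertex (cex k) m := fun u h =>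
    ⟨pt m (Sum.inl v) (Sum.inl u) j, Sum.inl v, Sum.inl u, j, Or.inr (adj_ll h), hjm, rfl⟩
  refine ⟨C.toNat, ?_, ?_⟩
  · intro hsub
    have h1 := hsub (hmem u₁ hc1 hd1 he1 (zz u₁ (hvu u₁ hc1 hd1)) rfl)
      (hmem u₂ hc2 hd2 he2 (zz u₂ (hvu u₂ hc2 hd2)) rfl)
    have h2 := congrFun (congrArg Subtype.val h1) (Sum.inl u₁)
    have h3 : (Sum.inl u₁ : Finset (Fin k) ⊕ Fin k) ≠ Sum.inl v :=
      fun h => hvu u₁ hc1 hd1 (Sum.inl.inj h).symm
    have h4 : (Sum.inl u₁ : Finset (Fin k) ⊕ Fin k) ≠ Sum.inl u₂ :=
      fun h => hne12 (Sum.inl.inj h)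
    simp [zz, pt, h3, h4] at h2
    omega
  · rcases Nat.lt_or_ge j m with hlt | hge
    · refine ⟨v, Q', E', j + 1, by omega, hlt, hv, hvQ.trans hQQ', by simpa using hQ'card,
        by simpa using hE'card, ?_⟩
      intro u hu hd hne y hy
      exact ⟨zz u (hvu u hu hd), hmem u hu hd hne _ rfl,
        Or.inr ⟨Sum.inl v, Sum.inl u, j, adj_ll (hvu u hu hd), hlt, rfl, hy⟩⟩
    · obtain rfl : j = m := le_antisymm hjm hge
      refine ⟨u₁, u₁, ∅, 1, le_rfl, hm, hc1, Finset.Subset.refl _, by omega, by simp, ?_⟩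
      intro u hu hd _ y hy
      have hne : u₁ ≠ u := by
        intro h
        subst h
        have h1 : u₁ = ∅ := (Finset.disjoint_self_iff_empty u₁).1 hd
        rw [h1] at hc1
        simp at hc1
      refine ⟨zz u₁ (hvu u₁ hc1 hd1), hmem u₁ hc1 hd1 he1 _ rfl,
        Or.inr ⟨Sum.inl u₁, Sum.inl u, 0, adj_ll hne, hm, ?_, hy⟩⟩
      exact (pt_full _ _).trans (pt_zero _ _).symm

lemma not_good (hm : 1 ≤ m) (hcount : 2 * m + 2 ≤ (k - (2 + (m - m / 2))).choose 2)
    {S : Set (FracVertex (cex k) m)} (h : CopWins (frac (cex k) m) S) : ¬ Good S := by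
  induction h with
  | probe S p _ ih =>
    intro hS
    obtain ⟨a, h1, h2⟩ := step hm hcount hS p
    exact ih a h1 h2

lemma not_winnable (hm : 1 ≤ m) (hcount : 2 * m + 2 ≤ (k - (2 + (m - m / 2))).choose 2) :
    ¬ CopWinnable (frac (cex k) m) := by
  intro h
  refine not_good hm hcount h ?_
  obtain ⟨u₁, _, _, ⟨hc, _, _⟩, _⟩ := two_sets (k := k) (Q := ∅) (E := ∅)
    (q := 2 + (m - m / 2)) (e := 2 * m) (by simp) (by simp) hcount
  exact ⟨u₁, u₁, ∅, 1, le_rfl, hm, hc, Finset.Subset.refl _, by omega, by simp,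
    fun _ _ _ _ _ _ => Set.mem_univ _⟩

end Example

/-- There is a finite connected graph `G` such that `G^{1/(μ(G)+1)}` is not cop-winnable.
Moreover, for all `k, m ≥ 1` with `2 m + 2 ≤ C(k - 2 - ⌈m/2⌉, 2)` there is a finite connected graph
`G` with `μ(G) ≤ k` such that `G^{1/m}` is not cop-winnable. -/
theorem result :
    (∃ (V : Type) (_ : Fintype V) (_ : DecidableEq V) (G : SimpleGraph V), G.Connected ∧
      ¬ CopWinnable (frac G (metricDim G + 1))) ∧
    (∀ k m : ℕ, 1 ≤ m → 2 * m + 2 ≤ (k - (2 + (m - m / 2))).choose 2 →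
      ∃ (V : Type) (_ : Fintype V) (_ : DecidableEq V) (G : SimpleGraph V), G.Connected ∧
        metricDim G ≤ k ∧ ¬ CopWinnable (frac G m)) := by
  refine ⟨⟨_, inferInstance, inferInstance, cex 32, connected_cex 32, ?_⟩, ?_⟩
  · have h := metricDim_cex 32
    generalize metricDim (cex 32) = n at h ⊢
    refine not_winnable (by omega) ?_
    interval_cases n <;> decide
  · intro k m hm hc
    exact ⟨_, inferInstance, inferInstance, cex k, connected_cex k, metricDim_cex k,
      not_winnable hm hc⟩

end Pool.Agent.Results.MP_e8bb91_co.SubdividedProbe
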